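import Pool.Agent.Y933.KE.PowRes

set_option autoImplicit false

/-!
# The digits of the multiples `a p ^ N + y`, `a` in a family of integers with small exponential sums
on the minor arcs (after helper933)
-/

namespace Pool.Agent.Q47.PWG

open Finset Real MeasureTheory Filter Topology
open Pool.Agent.Y933.KD Pool.Agent.Y933.KE
open scoped ENNReal

variable {ι : Type}

/-- the uniform probability measure on the family `x m`, `m ∈ s` -/
noncomputable def unif (s : Finset ι) (x : ι → ℝ) : Measure ℝ :=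
  (s.card : ℝ≥0∞)⁻¹ • ∑ m ∈ s, Measure.dirac (x m)

lemma unif_prob {s : Finset ι} (hs : s.Nonempty) (x : ι → ℝ) : IsProbabilityMeasure (unif s x) := by
  refine ⟨?_⟩
  unfold unif
  rw [Measure.smul_apply, Measure.finsetSum_apply]
  simp only [measure_univ, sum_const, smul_eq_mul, nsmul_eq_mul, mul_one]
  refine ENNReal.inv_mul_cancel ?_ (ENNReal.natCast_ne_top _)
  exact_mod_cast (Finset.card_pos.2 hs).ne'

lemma integral_unif (s : Finset ι) (x : ι → ℝ) (f : ℝ → ℂ) :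
    ∫ t, f t ∂(unif s x) = (1 / s.card) * ∑ m ∈ s, f (x m) := by
  unfold unif
  rw [integral_smul_measure, integral_finsetSum_measure]
  · simp only [integral_dirac, ENNReal.toReal_inv, ENNReal.toReal_natCast]
    rw [Complex.real_smul]
    push_cast
    rw [one_div]
  · intro m _
    exact integrable_dirac (by simp)

lemma real_unif (s : Finset ι) (x : ι → ℝ) {E : Set ℝ}
    [DecidablePred fun m => x m ∈ E] (hE : MeasurableSet E) :
    (unif s x).real E = (s.filter (fun m => x m ∈ E)).card / s.card := by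
  classical
  unfold unif Measure.real
  rw [Measure.smul_apply, Measure.finsetSum_apply]
  simp only [Measure.dirac_apply' _ hE, smul_eq_mul, ENNReal.toReal_mul, ENNReal.toReal_inv,
    ENNReal.toReal_natCast]
  have h1 : ∑ m ∈ s, E.indicator (1 : ℝ → ℝ≥0∞) (x m) =
      (s.filter (fun m => x m ∈ E)).card := by
    rw [card_filter]
    push_cast
    refine sum_congr rfl fun m _ => ?_
    by_cases h : x m ∈ E
    · rw [Set.indicator_of_mem h, if_pos h]; rfl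
    · rw [Set.indicator_of_notMem h, if_neg h]
  rw [h1, ENNReal.toReal_natCast, div_eq_inv_mul]

/-- a family: for every `M` a set of triples of a finite set, multipliers and shifts -/
abbrev Fam1 (ι : Type) : Type := ℕ → Set (Finset ι × (ι → ℕ) × (ι → ℕ))

/-- small exponential sums on the minor arcs -/
def Minor (F : Fam1 ι) (κ κ' : ℝ) (M0 : ℕ) : Prop :=
  ∀ M : ℕ, M0 ≤ M → ∀ f ∈ F M, ∀ (t θ : ℝ),
    (∀ u : ℕ, 1 ≤ u → (u:ℝ) ≤ (M:ℝ)^κ → ∀ z : ℤ, (M:ℝ)^(-(1/2) : ℝ) ≤ |u * θ - z|) →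
    ‖∑ i ∈ f.1, e (t * f.2.2 i + f.2.1 i * θ)‖ ≤ f.1.card * (M:ℝ)^(-κ')

/-- the measures -/
def SP (p q : ℕ) (A' B : ℝ) (F : Fam1 ι) (M : ℕ) : Set (Measure ℝ) :=
  {P | ∃ f ∈ F M, f.1.Nonempty ∧ ∃ N J : ℕ, (N:ℝ) ≤ A' * log M ∧ q^J ≤ p^N ∧ B * log M ≤ J ∧
    P = unif f.1 (fun i => ((f.2.1 i * p^N + f.2.2 i : ℕ) : ℝ) / (q:ℝ)^J)}

lemma SP_prob (p q : ℕ) (A' B : ℝ) (F : Fam1 ι) (M : ℕ) (P : Measure ℝ) (hP : P ∈ SP p q A' B F M) :
    IsProbabilityMeasure P := by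
  obtain ⟨f, _, hf, N, J, _, _, _, rfl⟩ := hP
  exact unif_prob hf _

theorem good_pow {p q : ℕ} (hp : 2 ≤ p) (hq : 2 ≤ q) (hpq : p.Coprime q) (A' : ℝ) (k : ℕ)
    (A ε : ℝ) (hε : 0 < ε) :
    ∃ κ : ℝ, 0 < κ ∧ ∀ (F : Fam1 ι) (κ' : ℝ) (M0 : ℕ), 0 < κ' → Minor F κ κ' M0 →
      GoodQ q k A (SP p q A' (A + ε) F) := by
  have hqR : (2 : ℝ) ≤ q := by exact_mod_cast hq
  have hq1 : (1 : ℝ) ≤ q := by linarith
  have hlq : 0 < log (q : ℝ) := Real.log_pos (by linarith)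
  set A0 : ℝ := 2 * (|A| + |A'|) with hA0
  obtain ⟨η, hη, L0, hL0⟩ := powers_far hp hq hpq k A0 (1 / 2) (by norm_num)
  refine ⟨min (η / 4) (ε * log q / 4), by positivity, fun F κ' M00 hκ' hF => ?_⟩
  set κ : ℝ := min (η / 4) (ε * log q / 4) with hκ
  have hκ0 : 0 < κ := by positivity
  have hκη : κ ≤ η / 4 := min_le_left _ _
  have hκε : κ ≤ ε * log q / 4 := min_le_right _ _
  have hev : ∀ᶠ x : ℝ in atTop, (k:ℝ) + 1 ≤ x ^ (ε * log q / 2) :=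
    (tendsto_rpow_atTop (by positivity)).eventually_ge_atTop _
  obtain ⟨x0, hx0⟩ := eventually_atTop.1 hev
  refine ⟨min κ κ', lt_min hκ0 hκ', max (max M00 ⌈x0⌉₊) (⌈exp (L0 + 1)⌉₊ + 3), ?_⟩
  intro M hM P hP n h hn hh hne
  obtain ⟨f, hfF, hfne, N, J, hN, hJ, hJB, rfl⟩ := hP
  have hM00 : M00 ≤ M := (le_max_left _ _).trans ((le_max_left _ _).trans hM)
  have hMx : ⌈x0⌉₊ ≤ M := (le_max_right _ _).trans ((le_max_left _ _).trans hM)
  have hMe : ⌈exp ((L0:ℝ) + 1)⌉₊ + 3 ≤ M := (le_max_right _ _).trans hM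
  have hM3 : 3 ≤ M := by omega
  have hM1 : 1 ≤ M := by omega
  have hMR : (1 : ℝ) ≤ M := by exact_mod_cast hM1
  have hMp : (0 : ℝ) < M := by linarith
  have hkM := hx0 M ((Nat.le_ceil x0).trans (by exact_mod_cast hMx))
  have hlog3 : 1 ≤ log (M : ℝ) := by
    rw [Real.le_log_iff_exp_le hMp]
    have h1 := Real.exp_one_lt_d9
    have h2 : (3 : ℝ) ≤ M := by exact_mod_cast hM3
    linarith
  have hlog : (L0 : ℝ) + 1 ≤ log M := by
    rw [Real.le_log_iff_exp_le hMp]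
    calc exp ((L0 : ℝ) + 1) ≤ (⌈exp ((L0 : ℝ) + 1)⌉₊ : ℝ) := Nat.le_ceil _
      _ ≤ M := by exact_mod_cast (by omega : ⌈exp ((L0 : ℝ) + 1)⌉₊ ≤ M)
  set L : ℕ := ⌊log (M : ℝ)⌋₊ with hL
  have hL1 : (L : ℝ) ≤ log M := Nat.floor_le (by linarith)
  have hL2 : log (M : ℝ) < L + 1 := Nat.lt_floor_add_one _
  have hLL0 : L0 ≤ L := by
    rw [hL]
    apply Nat.le_floor
    linarith
  have hL3 : (1 : ℝ) ≤ L := by
    have : 1 ≤ L := by
      rw [hL]
      apply Nat.le_floor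
      exact_mod_cast hlog3
    exact_mod_cast this
  have hL4 : log (M : ℝ) ≤ 2 * L := by linarith
  have hb1 : ∀ {B : ℝ}, |B| ≤ |A| + |A'| → ∀ {z : ℝ}, z ≤ B * log M → z ≤ A0 * L := by
    intro B hB z hz
    calc z ≤ B * log M := hz
      _ ≤ |B| * log M := by gcongr; exact le_abs_self B
      _ ≤ (|A| + |A'|) * (2 * L) := by gcongr
      _ = A0 * L := by rw [hA0]; ring
  set ℓ : ℤ := ∑ i, h i * (q : ℤ) ^ n i with hℓ
  have hhκ : ∀ i, |(h i : ℝ)| ≤ (M:ℝ)^κ := fun i =>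
    (hh i).trans (Real.rpow_le_rpow_of_exponent_le hMR (min_le_left _ _))
  -- the size of `u ℓ`
  have hsize : ∀ u : ℕ, 1 ≤ u → (u:ℝ) ≤ (M:ℝ)^κ → ¬ (q:ℤ)^J ∣ (u:ℤ) * ℓ := by
    intro u hu1 hu2 hdvd
    have h1 : |(((u:ℤ) * ℓ : ℤ) : ℝ)| < (q:ℝ)^J := by
      have h2 : |(ℓ:ℝ)| ≤ k * ((M:ℝ)^κ * (q:ℝ)^(A * log M)) := by
        rw [hℓ]
        push_cast
        refine (Finset.abs_sum_le_sum_abs _ _).trans ?_
        have h3 : ∀ i ∈ (univ : Finset (Fin k)), |(h i : ℝ) * (q:ℝ)^n i| ≤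
            (M:ℝ)^κ * (q:ℝ)^(A * log M) := by
          intro i _
          rw [abs_mul, abs_of_nonneg (by positivity : (0:ℝ) ≤ (q:ℝ)^n i), ← Real.rpow_natCast]
          exact mul_le_mul (hhκ i) (Real.rpow_le_rpow_of_exponent_le hq1 (hn i)) (by positivity)
            (by positivity)
        refine (Finset.sum_le_sum h3).trans ?_
        rw [sum_const, card_univ, Fintype.card_fin, nsmul_eq_mul]
      have h4 : (q:ℝ)^((A+ε) * log M) ≤ (q:ℝ)^J := by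
        rw [← Real.rpow_natCast]
        exact Real.rpow_le_rpow_of_exponent_le hq1 hJB
      have h5 : (q:ℝ)^(ε * log M) = (M:ℝ)^(ε * log q) := by
        rw [Real.rpow_def_of_pos (by linarith), Real.rpow_def_of_pos hMp]
        congr 1; ring
      have h6 : (k:ℝ) * ((M:ℝ)^κ * (M:ℝ)^κ) < (M:ℝ)^(ε * log q) := by
        have h7 : (M:ℝ)^κ * (M:ℝ)^κ ≤ (M:ℝ)^(ε * log q/2) := by
          rw [← Real.rpow_add hMp]
          exact Real.rpow_le_rpow_of_exponent_le hMR (by linarith)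
        have h8 : (M:ℝ)^(ε * log q/2) * (M:ℝ)^(ε * log q/2) = (M:ℝ)^(ε * log q) := by
          rw [← Real.rpow_add hMp]; congr 1; ring
        have h9 : 0 < (M:ℝ)^(ε * log q/2) := by positivity
        rw [← h8]
        calc (k:ℝ) * ((M:ℝ)^κ * (M:ℝ)^κ) ≤ k * (M:ℝ)^(ε * log q/2) := by gcongr
          _ < (M:ℝ)^(ε * log q/2) * (M:ℝ)^(ε * log q/2) := by gcongr; linarith
      push_cast
      rw [abs_mul, Nat.abs_cast]
      calc (u:ℝ) * |(ℓ:ℝ)| ≤ (M:ℝ)^κ * (k * ((M:ℝ)^κ * (q:ℝ)^(A * log M))) := by gcongr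
        _ = (k * ((M:ℝ)^κ * (M:ℝ)^κ)) * (q:ℝ)^(A * log M) := by ring
        _ < (M:ℝ)^(ε * log q) * (q:ℝ)^(A * log M) := by gcongr
        _ = (q:ℝ)^((A+ε) * log M) := by
          rw [← h5, ← Real.rpow_add (by linarith)]; congr 1; ring
        _ ≤ _ := h4
    have h2 : |(u:ℤ) * ℓ| < (q:ℤ)^J := by exact_mod_cast h1
    have h3 := Int.eq_zero_of_abs_lt_dvd hdvd h2
    rcases mul_eq_zero.1 h3 with h4 | h4
    · have : u = 0 := by exact_mod_cast h4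
      omega
    · exact hne h4
  have hfar : ∀ u : ℕ, 1 ≤ u → (u:ℝ) ≤ (M:ℝ)^κ → ∀ z : ℤ, (M : ℝ) ^ (-(1 / 2) : ℝ) ≤
      |u * ((p : ℝ) ^ N * ((ℓ : ℝ) / (q : ℝ) ^ J)) - z| := by
    intro u hu1 hu2 z
    have h1 := hL0 L hLL0 N J n (fun i => (u:ℤ) * h i) z
      (hb1 (by have := abs_nonneg A; linarith) hN)
      (fun i => hb1 (by have := abs_nonneg A'; linarith) (hn i)) hJ
      (fun i => by
        push_cast
        rw [abs_mul, Nat.abs_cast]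
        calc (u:ℝ) * |(h i : ℝ)| ≤ (M:ℝ)^κ * (M:ℝ)^κ := by
              have := hhκ i
              gcongr
          _ = (M:ℝ)^(2*κ) := by rw [← Real.rpow_add hMp]; congr 1; ring
          _ = exp (log M * (2*κ)) := Real.rpow_def_of_pos hMp _
          _ ≤ exp (η * L) := by
            apply exp_le_exp.2
            calc log M * (2*κ) ≤ (2 * L) * (η / 2) := by
                  apply mul_le_mul hL4 (by linarith) (by positivity) (by positivity)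
              _ = η * L := by ring)
      (by
        have e1 : ∑ i, (u:ℤ) * h i * (q:ℤ)^n i = (u:ℤ) * ℓ := by
          rw [hℓ, mul_sum]
          exact sum_congr rfl fun i _ => by ring
        rw [e1]
        exact hsize u hu1 hu2)
    have e1 : (∑ i, (u:ℤ) * h i * (q:ℤ)^n i : ℤ) = (u:ℤ) * ℓ := by
      rw [hℓ, mul_sum]
      exact sum_congr rfl fun i _ => by ring
    rw [e1] at h1
    have e2 : (p : ℝ) ^ N * (((u:ℤ) * ℓ : ℤ) / (q : ℝ) ^ J) - z =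
        u * ((p : ℝ) ^ N * ((ℓ : ℝ) / (q : ℝ) ^ J)) - z := by
      push_cast; ring
    rw [e2] at h1
    refine le_trans ?_ h1.le
    rw [Real.rpow_def_of_pos hMp]
    apply exp_le_exp.2
    linarith
  have h2 := hF M hM00 f hfF ((ℓ:ℝ) / (q:ℝ)^J) ((p : ℝ) ^ N * ((ℓ : ℝ) / (q : ℝ) ^ J)) hfar
  unfold hat
  rw [integral_unif, norm_mul]
  have hcard : (0:ℝ) < f.1.card := by exact_mod_cast Finset.card_pos.2 hfne
  have h4 : ‖(1 / (f.1.card : ℂ))‖ = 1 / (f.1.card : ℝ) := by simp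
  have h3 : ∑ i ∈ f.1, e ((ℓ:ℝ) * (((f.2.1 i * p^N + f.2.2 i : ℕ) : ℝ) / (q:ℝ)^J)) =
      ∑ i ∈ f.1, e ((ℓ:ℝ) / (q:ℝ)^J * f.2.2 i + f.2.1 i * ((p : ℝ) ^ N * ((ℓ : ℝ) / (q : ℝ) ^ J))) := by
    refine sum_congr rfl fun i _ => ?_
    congr 1
    push_cast
    ring
  rw [h3, h4]
  calc 1 / (f.1.card : ℝ) * ‖∑ i ∈ f.1, e ((ℓ:ℝ) / (q:ℝ)^J * f.2.2 i +
          f.2.1 i * ((p : ℝ) ^ N * ((ℓ : ℝ) / (q : ℝ) ^ J)))‖
      ≤ 1 / (f.1.card : ℝ) * (f.1.card * (M:ℝ)^(-κ')) := by gcongr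
    _ = (M:ℝ)^(-κ') := by field_simp
    _ ≤ _ := Real.rpow_le_rpow_of_exponent_le hMR (by
        have := min_le_right κ κ'
        linarith)

open Classical in
/-- **normality in windows** -/
theorem normal_pow {p q : ℕ} (hp : 2 ≤ p) (hq : 2 ≤ q) (hpq : p.Coprime q) (w : ℕ) (A' A ε : ℝ)
    (hε : 0 < ε) :
    ∃ κ : ℝ, 0 < κ ∧ ∀ (F : Fam1 ι) (κ' : ℝ) (M0 : ℕ), 0 < κ' → Minor F κ κ' M0 →
    ∃ c : ℝ, 0 < c ∧ ∃ M₀ : ℕ, ∀ M : ℕ, M₀ ≤ M → ∀ f ∈ F M, ∀ N J : ℕ, (N:ℝ) ≤ A' * log M →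
      q ^ J ≤ p ^ N → (A + 1 + ε) * log M ≤ J →
      ((f.1.filter (fun m => ¬ ∀ k j i₀ L : ℕ, 1 ≤ k → k ≤ w → j < q ^ k →
        (J:ℝ) - A * log M ≤ i₀ → i₀ + L + k ≤ J →
        |(((range L).filter (fun i => (f.2.1 m * p ^ N + f.2.2 m) / q ^ (i₀ + i) % q ^ k = j)).card : ℝ) -
          L / (q : ℝ) ^ k| ≤ ε * log M)).card : ℝ) ≤ f.1.card * (M : ℝ) ^ (-c) := by
  obtain ⟨κ, hκ, hgood⟩ := good_pow (ι := ι) hp hq hpq A' 1 (A + 1) ε hε
  refine ⟨κ, hκ, fun F κ' M00 hκ' hF => ?_⟩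
  have hS : ∀ M, 1 ≤ M → ∀ P ∈ SP p q A' (A + 1 + ε) F M, IsProbabilityMeasure P :=
    fun M _ P hP => SP_prob _ _ _ _ _ _ P hP
  obtain ⟨c, hc, M0, h⟩ := normal_TW (b := q) (w := max w 1) hq (le_max_right _ _) (A := A) hε hS
    (TW.of_goodQ (by omega) hS (hgood F κ' M00 hκ' hF))
  refine ⟨c, hc, max M0 1, fun M hM f hf N J hN hJ hJB => ?_⟩
  obtain ⟨U, hU, hP, hx⟩ := h M ((le_max_left _ _).trans hM)
  have hM1 : 1 ≤ M := (le_max_right _ _).trans hM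
  have hlog0 : 0 ≤ log (M : ℝ) := Real.log_nonneg (by exact_mod_cast hM1)
  rcases f.1.eq_empty_or_nonempty with hemp | hne
  · rw [hemp]; simp
  have hcard : (0:ℝ) < f.1.card := by exact_mod_cast Finset.card_pos.2 hne
  have h1 := hP _ ⟨f, hf, hne, N, J, hN, hJ, hJB, rfl⟩
  rw [real_unif _ _ hU, div_le_iff₀ hcard] at h1
  refine le_trans ?_ (h1.trans (le_of_eq (mul_comm _ _)))
  refine Nat.cast_le.2 (Finset.card_le_card fun m hm => ?_)
  rw [mem_filter] at hm ⊢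
  refine ⟨hm.1, ?_⟩
  by_contra hxU
  apply hm.2
  intro k j i₀ L hk hkw hj hi₀ hJk
  rcases Nat.eq_zero_or_pos L with rfl | hL
  · simp only [range_zero, filter_empty, card_empty, Nat.cast_zero, zero_div, sub_zero, abs_zero]
    positivity
  have h2 := hx _ hxU k j (J + 1 - (i₀ + L + k)) L hk (hkw.trans (le_max_left _ _)) hj (by
    have h3 : (J + 1 - (i₀ + L + k)) + L + i₀ ≤ J := by omega
    have h4 : (((J + 1 - (i₀ + L + k) : ℕ) : ℝ)) + L + i₀ ≤ J := by exact_mod_cast h3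
    linarith)
  rw [WS_ci (by omega)] at h2
  have h3 := count_places (by omega : 1 ≤ q) j (s := i₀) (s' := J + 1 - (i₀ + L + k)) (L := L) (k := k)
    (J := J) (by omega) (f.2.1 m * p^N + f.2.2 m) (θ := 0) ⟨le_rfl, one_pos⟩
  rw [add_zero] at h3
  rw [h3] at h2
  exact h2

end Pool.Agent.Q47.PWG
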