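import Pool.Agent.Q47.PWG.Gen
import Pool.Agent.Q47.DG.Kap

set_option autoImplicit false

/-!
# The multiples of powers by primes and by the products of two dense sets
-/

namespace Pool.Agent.Q47.PWG

open Finset Real MeasureTheory Filter Topology
open Pool.Agent.Y933.KD (e e_zero e_add norm_e e_sum)
open Pool.Agent.H807R2.Dav (ee ee_add norm_ee)

variable {ι : Type}

lemma e_eq_ee (t : ℝ) : e t = ee t := by
  unfold e ee
  congr 1
  push_cast
  ring

/-- the primes up to `M`, with a common shift -/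
def primeFam : Fam1 ℕ := fun M =>
  {f | ∃ y : ℕ, f = ({p ∈ Icc 1 M | p.Prime}, fun p : ℕ => p, fun _ : ℕ => y)}

lemma prime_Minor (κ : ℝ) (hκ : 0 < κ) :
    ∃ κ' : ℝ, 0 < κ' ∧ ∃ M0 : ℕ, Minor primeFam κ κ' M0 := by
  obtain ⟨X0, h⟩ := Pool.Agent.Q47.DG.prime_minor_k (min κ (1/5)) (by positivity) (min_le_right _ _)
  refine ⟨min κ (1/5) / 8, by positivity, max X0 1, ?_⟩
  intro M hM f hf t θ hθ
  obtain ⟨y, rfl⟩ := hf
  have hM1 : (1:ℝ) ≤ M := by exact_mod_cast (le_max_right _ _).trans hM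
  have h1 := h M ((le_max_left _ _).trans hM) θ (fun u hu1 hu2 z => hθ u hu1
    (hu2.trans (Real.rpow_le_rpow_of_exponent_le hM1 (min_le_left _ _))) z)
  have e1 : ∑ p ∈ Icc 1 M with p.Prime, e (t * (y:ℝ) + (p:ℝ) * θ) =
      e (t * y) * ∑ p ∈ Icc 1 M with p.Prime, ee ((p:ℝ) * θ) := by
    rw [Finset.mul_sum]
    apply Finset.sum_congr rfl
    intro p _
    rw [e_add, e_eq_ee ((p:ℝ) * θ)]
  simp only
  rw [e1, norm_mul, norm_e, one_mul]
  exact h1

/-- the products of two dense sets, with all shifts `u a + v c` -/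
def prodFam (δ : ℝ) : Fam1 (ℕ × ℕ) := fun M =>
  {f | ∃ P Q : Finset ℕ, (∀ a ∈ P, 1 ≤ a ∧ a ≤ M) ∧ (∀ c ∈ Q, 1 ≤ c ∧ c ≤ M) ∧
    (M:ℝ) ^ (2 - δ) ≤ (#P:ℝ) * #Q ∧ ∃ u v : ℕ → ℕ,
    f = (P ×ˢ Q, fun i : ℕ × ℕ => i.1 * i.2, fun i : ℕ × ℕ => u i.1 + v i.2)}

lemma prod_Minor (κ : ℝ) (hκ : 0 < κ) :
    ∃ κ' : ℝ, 0 < κ' ∧ ∃ δ : ℝ, 0 < δ ∧ ∀ δ' ≤ δ, ∃ M0 : ℕ,
      Minor (prodFam δ') κ κ' M0 := by
  obtain ⟨X0, h⟩ := Pool.Agent.Q47.DG.product_minor_k (min κ (1/5)) (by positivity)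
    (min_le_right _ _)
  refine ⟨min κ (1/5) / 8, by positivity, min κ (1/5) / 4, by positivity, fun δ' hδ' =>
    ⟨max X0 1, ?_⟩⟩
  intro M hM f hf t θ hθ
  obtain ⟨P, Q, hP, hQ, hPQ, u, v, rfl⟩ := hf
  have hM1 : (1:ℝ) ≤ M := by exact_mod_cast (le_max_right _ _).trans hM
  have h1 := h M ((le_max_left _ _).trans hM) P Q hP hQ
    ((Real.rpow_le_rpow_of_exponent_le hM1 (by linarith)).trans hPQ)
    (fun a => ee (t * u a)) (fun a => ee (t * v a))
    (fun a => (norm_ee _).le) (fun a => (norm_ee _).le) θ (fun w hu1 hu2 z => hθ w hu1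
    (hu2.trans (Real.rpow_le_rpow_of_exponent_le hM1 (min_le_left _ _))) z)
  have e1 : ∑ i ∈ P ×ˢ Q, e (t * ((u i.1 + v i.2 : ℕ) : ℝ) + ((i.1 * i.2 : ℕ) : ℝ) * θ) =
      ∑ i ∈ P ×ˢ Q, ee (t * u i.1) * ee (t * v i.2) * ee ((i.1 * i.2 : ℕ) * θ) := by
    apply Finset.sum_congr rfl
    intro i _
    rw [e_eq_ee, ← ee_add, ← ee_add]
    congr 1
    push_cast; ring
  simp only
  rw [e1, card_product, Nat.cast_mul]
  exact h1

/-- the families without shifts -/
def Unshifted (F : Fam1 ι) : Fam1 ι := fun M =>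
  {f | f ∈ F M ∧ (∀ i ∈ f.1, 1 ≤ f.2.1 i ∧ f.2.1 i ≤ M ^ 2) ∧ ∀ i ∈ f.1, f.2.2 i = 0}

open Classical in
/-- **the frequencies of the digits of `a p ^ n`** -/
theorem freq_pow {p q : ℕ} (hp : 2 ≤ p) (hq : 2 ≤ q) (hpq : p.Coprime q) (ε : ℝ) (hε : 0 < ε) :
    ∃ θ0 : ℝ, 0 < θ0 ∧ ∀ θ : ℝ, 0 < θ → θ ≤ θ0 →
    ∃ κ : ℝ, 0 < κ ∧ ∀ (F : Fam1 ι) (κ' : ℝ) (M0 : ℕ), 0 < κ' → Minor F κ κ' M0 →
    ∃ c : ℝ, 0 < c ∧ ∃ n₀ : ℕ, ∀ n : ℕ, n₀ ≤ n → ∀ f ∈ Unshifted F ⌊(p:ℝ)^(θ * n)⌋₊,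
      ((f.1.filter (fun m => ∃ b < q, 2 * ε <
        |((Nat.digits q (f.2.1 m * p ^ n)).count b : ℝ) / (n * Real.logb q p) - 1 / q|)).card : ℝ) ≤
      f.1.card * (p : ℝ) ^ (-(c * n)) := by
  have hqR : (2 : ℝ) ≤ q := by exact_mod_cast hq
  have hq0 : (0 : ℝ) < q := by linarith
  have hpR : (2 : ℝ) ≤ p := by exact_mod_cast hp
  have hp0 : (0 : ℝ) < p := by linarith
  have hlq : 0 < Real.log (q : ℝ) := Real.log_pos (by linarith)
  have hlp : 0 < Real.log (p : ℝ) := Real.log_pos (by linarith)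
  refine ⟨min (ε / 2) (ε / (40 * Real.log q)), by positivity, fun θ hθ hθ0 => ?_⟩
  have hθε : θ ≤ ε / 2 := hθ0.trans (min_le_left _ _)
  have hθq : θ * (40 * Real.log q) ≤ ε := by
    have := hθ0.trans (min_le_right _ _)
    rwa [le_div_iff₀ (by positivity)] at this
  -- the parameters
  set A : ℝ := 1 / (θ * Real.log q) - 3 with hA
  obtain ⟨κ, hκ, h⟩ := normal_pow (ι := ι) hp hq hpq 1 (2 / (θ * Real.log p)) A 1 one_pos
  refine ⟨κ, hκ, fun F κ' M00 hκ' hF => ?_⟩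
  obtain ⟨c, hc, M0, hM0⟩ := h F κ' M00 hκ' hF
  obtain ⟨n₁, hn₁⟩ := Pool.Agent.Y933.KE.freq_of_low hp hq hε
  have ht : Tendsto (fun n : ℕ => ((p : ℝ) ^ (θ * n) : ℝ)) atTop atTop := by
    have h1 : Tendsto (fun n : ℕ => θ * (n : ℝ)) atTop atTop :=
      tendsto_natCast_atTop_atTop.const_mul_atTop hθ
    have h2 := Real.tendsto_exp_atTop.comp (h1.const_mul_atTop hlp)
    refine h2.congr fun n => ?_
    simp only [Function.comp_apply]
    rw [Real.rpow_def_of_pos hp0]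
  obtain ⟨n₂, hn₂⟩ := eventually_atTop.1 ((ht.eventually_ge_atTop ((M0 : ℝ) + Real.exp 3 + 4)))
  -- `n` large
  obtain ⟨n₃, hn₃⟩ := exists_nat_ge ((4 + 1 / (θ * Real.log q)) / (θ * Real.log p))
  refine ⟨θ * c / 2, by positivity, max n₁ (max n₂ (max n₃ 1)), fun n hn f hf => ?_⟩
  have h1 := hn₁ n ((le_max_left _ _).trans hn)
  have h2 := hn₂ n ((le_max_left _ _).trans ((le_max_right _ _).trans hn))
  have hn3 : n₃ ≤ n := (le_max_left _ _).trans ((le_max_right _ _).trans ((le_max_right _ _).trans hn))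
  have hn1 : 1 ≤ n := (le_max_right _ _).trans ((le_max_right _ _).trans ((le_max_right _ _).trans hn))
  have hnR : (1 : ℝ) ≤ n := by exact_mod_cast hn1
  have hθq0 : 0 < 1 / (θ * Real.log q) := by positivity
  have hθn' : 4 + 1 / (θ * Real.log q) ≤ θ * n * Real.log p := by
    have h3 : (4 + 1 / (θ * Real.log q)) / (θ * Real.log p) ≤ n := hn₃.trans (by exact_mod_cast hn3)
    rw [div_le_iff₀ (by positivity)] at h3
    linarith
  have hθn : 4 ≤ θ * n * Real.log p := by linarith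
  set z : ℝ := (p : ℝ) ^ (θ * n) with hz
  have hz0 : 0 < z := by positivity
  set M : ℕ := ⌊z⌋₊ with hM
  have hM1 : (M : ℝ) ≤ z := Nat.floor_le hz0.le
  have hM2 : z < M + 1 := Nat.lt_floor_add_one _
  have hexp3 : 0 < Real.exp 3 := Real.exp_pos 3
  have hM0nn : (0:ℝ) ≤ M0 := Nat.cast_nonneg _
  have hM0R : (M0 : ℝ) + Real.exp 3 + 3 ≤ M := by linarith
  have hMM0 : M0 ≤ M := by
    have : (M0 : ℝ) ≤ M := by linarith
    exact_mod_cast this
  have hMp : (3 : ℝ) ≤ M := by linarith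
  have hMp0 : (0 : ℝ) < M := by linarith
  have hlogM3 : 3 ≤ Real.log M := by
    rw [Real.le_log_iff_exp_le hMp0]
    linarith
  have hlogz : Real.log z = θ * n * Real.log p := by rw [hz, Real.log_rpow hp0]
  have hlogM1 : Real.log M ≤ θ * n * Real.log p := by
    rw [← hlogz]
    exact Real.log_le_log hMp0 hM1
  have hlogM2 : θ * n * Real.log p ≤ Real.log M + 1 := by
    rw [← hlogz]
    have h3 : z ≤ M * Real.exp 1 := by
      have h4 : (2:ℝ) ≤ Real.exp 1 := by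
        have := Real.add_one_le_exp (1:ℝ)
        linarith
      nlinarith
    have h4 := Real.log_le_log hz0 h3
    rwa [Real.log_mul hMp0.ne' (Real.exp_pos _).ne', Real.log_exp] at h4
  have hN : (n : ℝ) ≤ (2 / (θ * Real.log p)) * Real.log M := by
    rw [div_mul_eq_mul_div, le_div_iff₀ (by positivity)]
    calc (n : ℝ) * (θ * Real.log p) = θ * n * Real.log p := by ring
      _ ≤ 2 * Real.log M := by linarith
  set J : ℕ := Nat.log q (p ^ n) with hJ
  have hpn : p ^ n ≠ 0 := by positivity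
  have hJ1 : q ^ J ≤ p ^ n := Nat.pow_log_le_self q hpn
  have hJ2 : p ^ n < q ^ (J + 1) := Nat.lt_pow_succ_log_self (by omega) _
  have hJR1 : (J : ℝ) * Real.log q ≤ n * Real.log p := by
    have h3 : (q : ℝ) ^ J ≤ (p : ℝ) ^ n := by exact_mod_cast hJ1
    have h4 := Real.log_le_log (by positivity) h3
    rwa [Real.log_pow, Real.log_pow] at h4
  have hJR2 : (n : ℝ) * Real.log p ≤ (J + 1) * Real.log q := by
    have h3 : (p : ℝ) ^ n ≤ (q : ℝ) ^ (J + 1) := by exact_mod_cast hJ2.le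
    have h4 := Real.log_le_log (by positivity) h3
    rw [Real.log_pow, Real.log_pow] at h4
    push_cast at h4
    exact h4
  -- `D = n log p / log q`
  obtain ⟨D, hD⟩ : ∃ D : ℝ, D = n * Real.log p / Real.log q := ⟨_, rfl⟩
  have hD1 : (J:ℝ) ≤ D := by rw [hD, le_div_iff₀ hlq]; exact hJR1
  have hD2 : D ≤ J + 1 := by rw [hD, div_le_iff₀ hlq]; exact hJR2
  have hDM : D = (1 / (θ * Real.log q)) * (θ * n * Real.log p) := by rw [hD]; field_simp
  have hD3 : (1 / (θ * Real.log q)) * Real.log M ≤ D := by rw [hDM]; gcongr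
  have hJB : (A + 1 + 1) * Real.log M ≤ J := by
    have : (A + 1 + 1) * Real.log M = (1 / (θ * Real.log q)) * Real.log M - Real.log M := by
      rw [hA]; ring
    rw [this]
    linarith
  have h3 := hM0 M hMM0 f hf.1 n J hN hJ1 hJB
  have h4 : (M : ℝ) ^ (-c) ≤ (p : ℝ) ^ (-(θ * c / 2 * n)) := by
    rw [Real.rpow_def_of_pos hMp0, Real.rpow_def_of_pos hp0]
    apply Real.exp_le_exp.2
    have : θ * n * Real.log p ≤ 2 * Real.log M := by linarith
    nlinarith
  have hcard0 : (0:ℝ) ≤ f.1.card := Nat.cast_nonneg _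
  refine le_trans ?_ (h3.trans (mul_le_mul_of_nonneg_left h4 hcard0))
  refine Nat.cast_le.2 (Finset.card_le_card fun m hm => ?_)
  replace hm := Finset.mem_filter.1 hm
  refine Finset.mem_filter.2 ⟨hm.1, fun hall => ?_⟩
  obtain ⟨b, hb, hbad⟩ := hm.2
  obtain ⟨hm1, hm2⟩ := hf.2.1 m hm.1
  have hm0 := hf.2.2 m hm.1
  refine absurd (h1 (f.2.1 m) b hm1 ?_ ?_) (not_le.2 hbad)
  · have h5 : ((f.2.1 m : ℕ) : ℝ) ≤ (M:ℝ)^2 := by exact_mod_cast hm2
    calc ((f.2.1 m : ℕ) : ℝ) ≤ (M:ℝ)^2 := h5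
      _ ≤ z ^ 2 := by gcongr
      _ = (p:ℝ)^(2 * θ * n) := by
        rw [hz, ← Real.rpow_natCast, ← Real.rpow_mul hp0.le]
        congr 1; push_cast; ring
      _ ≤ (p:ℝ)^(ε * n) := by
        apply Real.rpow_le_rpow_of_exponent_le (by linarith)
        have : 2 * θ ≤ ε := by linarith
        gcongr
  · -- the window
    obtain ⟨i₁, hi₁⟩ : ∃ i₁ : ℕ, i₁ = ⌈(J:ℝ) - A * Real.log M⌉₊ := ⟨_, rfl⟩
    have hAM : (J:ℝ) - A * Real.log M ≤ 4 * (θ * n * Real.log p) := by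
      have h6 : A * Real.log M = (1 / (θ * Real.log q)) * Real.log M - 3 * Real.log M := by
        rw [hA]; ring
      have h7 : (1 / (θ * Real.log q)) * (θ * n * Real.log p) ≤
          (1 / (θ * Real.log q)) * (Real.log M + 1) := by gcongr
      rw [← hDM] at h7
      rw [h6]
      linarith
    have hi₁1 : (J:ℝ) - A * Real.log M ≤ i₁ := by rw [hi₁]; exact Nat.le_ceil _
    have hi₁2 : (i₁:ℝ) ≤ 4 * (θ * n * Real.log p) + 1 := by
      rw [hi₁]
      have h6 : ⌈(J:ℝ) - A * Real.log M⌉₊ ≤ ⌈4 * (θ * n * Real.log p)⌉₊ := Nat.ceil_mono hAM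
      have h7 := Nat.ceil_lt_add_one (a := 4 * (θ * n * Real.log p)) (by positivity)
      have h8 : ((⌈(J:ℝ) - A * Real.log M⌉₊ : ℕ) : ℝ) ≤ (⌈4 * (θ * n * Real.log p)⌉₊ : ℕ) := by
        exact_mod_cast h6
      linarith
    have hfin : 1 / (4 * Real.log q) * (ε * n * Real.log p) ≥ 10 * (θ * n * Real.log p) := by
      have h6 : 1 / (4 * Real.log q) * (ε * n * Real.log p) = ε * (n * Real.log p) / (4 * Real.log q) := by
        field_simp
      rw [h6, ge_iff_le, le_div_iff₀ (by positivity)]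
      have h7 : 0 < n * Real.log p := by positivity
      nlinarith
    obtain ⟨C, hC⟩ : ∃ C : ℕ, C = ((range J).filter (fun i => f.2.1 m * p ^ n / q ^ i % q = b)).card :=
      ⟨_, rfl⟩
    rw [← hC]
    have hCJ : C ≤ J := by
      rw [hC]; exact (card_filter_le _ _).trans (by rw [card_range])
    have hq1' : (1:ℝ) ≤ q := by linarith
    have hJq : (J:ℝ) / q ≤ J := div_le_self (Nat.cast_nonneg _) hq1'
    have hJq0 : 0 ≤ (J:ℝ) / q := by positivity
    refine le_trans ?_ hfin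
    rcases Nat.lt_or_ge i₁ J with hlt | hge
    · have h5 := hall 1 b i₁ (J - i₁ - 1) le_rfl le_rfl (by simpa using hb) hi₁1 (by omega)
      rw [hm0] at h5
      simp only [add_zero, pow_one, one_mul] at h5
      obtain ⟨W, hW⟩ : ∃ W : ℕ, W = ((range (J - i₁ - 1)).filter
        (fun i => f.2.1 m * p ^ n / q ^ (i₁ + i) % q = b)).card := ⟨_, rfl⟩
      rw [← hW] at h5
      have hWC : W ≤ C := by
        rw [hW, hC]
        have hinj : Set.InjOn (fun i : ℕ => i₁ + i) ((range (J - i₁ - 1)).filter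
          (fun i => f.2.1 m * p ^ n / q ^ (i₁ + i) % q = b) : Set ℕ) := by
          intro x _ y _ hxy
          simpa using hxy
        rw [← Finset.card_image_of_injOn hinj]
        apply card_le_card
        intro i hi
        rw [Finset.mem_image] at hi
        obtain ⟨i', hi', rfl⟩ := hi
        rw [mem_filter, mem_range] at hi' ⊢
        exact ⟨by omega, hi'.2⟩
      have hCW : C ≤ W + (i₁ + 1) := by
        rw [hC, hW]
        have hsub : (range J).filter (fun i => f.2.1 m * p ^ n / q ^ i % q = b) ⊆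
            (((range (J - i₁ - 1)).filter (fun i => f.2.1 m * p ^ n / q ^ (i₁ + i) % q = b)).image
              (fun i => i₁ + i)) ∪ (range i₁ ∪ {J - 1}) := by
          intro i hi
          rw [mem_filter, mem_range] at hi
          rw [mem_union, mem_union, mem_range, mem_singleton, Finset.mem_image]
          by_cases h6 : i < i₁
          · exact Or.inr (Or.inl h6)
          by_cases h7 : i = J - 1
          · exact Or.inr (Or.inr h7)
          refine Or.inl ⟨i - i₁, ?_, by omega⟩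
          rw [mem_filter, mem_range]
          refine ⟨by omega, ?_⟩
          rw [show i₁ + (i - i₁) = i by omega]
          exact hi.2
        refine (card_le_card hsub).trans ((card_union_le _ _).trans ?_)
        refine add_le_add Finset.card_image_le ((card_union_le _ _).trans ?_)
        rw [card_range, card_singleton]
      have hWCr : (W:ℝ) ≤ C := by exact_mod_cast hWC
      have hCWr : (C:ℝ) ≤ W + (i₁ + 1) := by exact_mod_cast hCW
      have hLr : ((J - i₁ - 1 : ℕ) : ℝ) = J - i₁ - 1 := by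
        rw [Nat.cast_sub (by omega), Nat.cast_sub (by omega)]
        push_cast; ring
      rw [hLr] at h5
      have h6 : ((J:ℝ) - i₁ - 1) / q = J / q - (i₁ + 1) / q := by ring
      rw [h6] at h5
      have h7 : ((i₁:ℝ) + 1) / q ≤ i₁ + 1 := div_le_self (by positivity) hq1'
      have h8 : 0 ≤ ((i₁:ℝ) + 1) / q := by positivity
      have h9 := abs_le.1 h5
      rw [abs_le]
      constructor <;> linarith [h9.1, h9.2]
    · have hJi : (J:ℝ) ≤ i₁ := by exact_mod_cast hge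
      have hCr : (C:ℝ) ≤ J := by exact_mod_cast hCJ
      have hC0 : (0:ℝ) ≤ C := Nat.cast_nonneg _
      rw [abs_le]
      constructor <;> linarith

end Pool.Agent.Q47.PWG
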