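import Pool.Agent.Q47.PWG.Inst

set_option autoImplicit false

/-!
# All words in all windows of the expansions of the multiples of powers
-/

namespace Pool.Agent.Q47.PWG

open Finset Real MeasureTheory Filter Topology

variable {ι : Type}

lemma sub_window (P : ℕ → Prop) [DecidablePred P] (i L lo hi : ℕ) (h1 : i ≤ lo) (h2 : lo ≤ hi)
    (h3 : hi ≤ i + L) :
    ((range (hi - lo)).filter (fun s => P (lo + s))).card ≤
      ((range L).filter (fun s => P (i + s))).card ∧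
    ((range L).filter (fun s => P (i + s))).card ≤
      ((range (hi - lo)).filter (fun s => P (lo + s))).card + (L - (hi - lo)) := by
  constructor
  · have hinj : Set.InjOn (fun s : ℕ => (lo - i) + s)
        ((range (hi - lo)).filter (fun s => P (lo + s)) : Set ℕ) := by
      intro x _ y _ hxy
      simpa using hxy
    rw [← Finset.card_image_of_injOn hinj]
    apply card_le_card
    intro s hs
    rw [Finset.mem_image] at hs
    obtain ⟨s', hs', rfl⟩ := hs
    rw [mem_filter, mem_range] at hs' ⊢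
    refine ⟨by omega, ?_⟩
    rw [show i + (lo - i + s') = lo + s' by omega]
    exact hs'.2
  · have hsub : (range L).filter (fun s => P (i + s)) ⊆
        (((range (hi - lo)).filter (fun s => P (lo + s))).image (fun s => (lo - i) + s)) ∪
          ((range (lo - i)) ∪ (Ico (hi - i) L)) := by
      intro s hs
      rw [mem_filter, mem_range] at hs
      rw [mem_union, mem_union, mem_range, mem_Ico, Finset.mem_image]
      by_cases h6 : s < lo - i
      · exact Or.inr (Or.inl h6)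
      by_cases h7 : hi - i ≤ s
      · exact Or.inr (Or.inr ⟨h7, hs.1⟩)
      refine Or.inl ⟨s - (lo - i), ?_, by omega⟩
      rw [mem_filter, mem_range]
      refine ⟨by omega, ?_⟩
      rw [show lo + (s - (lo - i)) = i + s by omega]
      exact hs.2
    refine (card_le_card hsub).trans ((card_union_le _ _).trans ?_)
    refine add_le_add Finset.card_image_le ((card_union_le _ _).trans ?_)
    rw [card_range, Nat.card_Ico]
    omega

open Classical in
/-- **all words in all windows of `a p ^ n`** -/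
theorem windows_pow {p q : ℕ} (hp : 2 ≤ p) (hq : 2 ≤ q) (hpq : p.Coprime q) (w : ℕ) (ε : ℝ)
    (hε : 0 < ε) :
    ∃ θ0 : ℝ, 0 < θ0 ∧ ∀ θ : ℝ, 0 < θ → θ ≤ θ0 →
    ∃ κ : ℝ, 0 < κ ∧ ∀ (F : Fam1 ι) (κ' : ℝ) (M0 : ℕ), 0 < κ' → Minor F κ κ' M0 →
    ∃ c : ℝ, 0 < c ∧ ∃ n₀ : ℕ, ∀ n : ℕ, n₀ ≤ n → ∀ f ∈ Unshifted F ⌊(p:ℝ)^(θ * n)⌋₊,
      ((f.1.filter (fun m => ¬ ∀ k j i L : ℕ, 1 ≤ k → k ≤ w → j < q ^ k →
        q ^ (i + L) ≤ q * (f.2.1 m * p ^ n) →
        |(((range L).filter (fun s => f.2.1 m * p ^ n / q ^ (i + s) % q ^ k = j)).card : ℝ) -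
          L / (q : ℝ) ^ k| ≤ ε * n)).card : ℝ) ≤
      f.1.card * (p : ℝ) ^ (-(c * n)) := by
  have hqR : (2 : ℝ) ≤ q := by exact_mod_cast hq
  have hq0 : (0 : ℝ) < q := by linarith
  have hpR : (2 : ℝ) ≤ p := by exact_mod_cast hp
  have hp0 : (0 : ℝ) < p := by linarith
  have hlq : 0 < Real.log (q : ℝ) := Real.log_pos (by linarith)
  have hlp : 0 < Real.log (p : ℝ) := Real.log_pos (by linarith)
  have hlq0 : 0 < 1 / Real.log (q:ℝ) := by positivity
  refine ⟨ε / (2 * ((5 + 2 * (1 / Real.log q)) * Real.log p)), by positivity, fun θ hθ hθ0 => ?_⟩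
  have hθq : 2 * ((5 + 2 * (1 / Real.log q)) * (θ * Real.log p)) ≤ ε := by
    rw [le_div_iff₀ (by positivity)] at hθ0
    linarith
  -- the parameters
  set A : ℝ := 1 / (θ * Real.log q) - 3 with hA
  obtain ⟨κ, hκ, h⟩ := normal_pow (ι := ι) hp hq hpq w (2 / (θ * Real.log p)) A 1 one_pos
  refine ⟨κ, hκ, fun F κ' M00 hκ' hF => ?_⟩
  obtain ⟨c, hc, M0, hM0⟩ := h F κ' M00 hκ' hF
  have ht : Tendsto (fun n : ℕ => ((p : ℝ) ^ (θ * n) : ℝ)) atTop atTop := by
    have h1 : Tendsto (fun n : ℕ => θ * (n : ℝ)) atTop atTop :=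
      tendsto_natCast_atTop_atTop.const_mul_atTop hθ
    have h2 := Real.tendsto_exp_atTop.comp (h1.const_mul_atTop hlp)
    refine h2.congr fun n => ?_
    simp only [Function.comp_apply]
    rw [Real.rpow_def_of_pos hp0]
  obtain ⟨n₂, hn₂⟩ := eventually_atTop.1 ((ht.eventually_ge_atTop ((M0 : ℝ) + Real.exp 3 + 4)))
  -- `n` large
  obtain ⟨n₃, hn₃⟩ := exists_nat_ge ((4 + 1 / (θ * Real.log q)) / (θ * Real.log p))
  obtain ⟨n₄, hn₄⟩ := exists_nat_ge (2 * ((w:ℝ) + 5) / ε)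
  refine ⟨θ * c / 2, by positivity, max n₄ (max n₂ (max n₃ 1)), fun n hn f hf => ?_⟩
  have hn4 : n₄ ≤ n := (le_max_left _ _).trans hn
  have h2 := hn₂ n ((le_max_left _ _).trans ((le_max_right _ _).trans hn))
  have hn3 : n₃ ≤ n := (le_max_left _ _).trans ((le_max_right _ _).trans ((le_max_right _ _).trans hn))
  have hn1 : 1 ≤ n := (le_max_right _ _).trans ((le_max_right _ _).trans ((le_max_right _ _).trans hn))
  have hnR : (1 : ℝ) ≤ n := by exact_mod_cast hn1
  have hwn : 2 * ((w:ℝ) + 5) ≤ ε * n := by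
    have h3 : 2 * ((w:ℝ) + 5) / ε ≤ n := hn₄.trans (by exact_mod_cast hn4)
    rw [div_le_iff₀ hε] at h3
    linarith
  have hθq0 : 0 < 1 / (θ * Real.log q) := by positivity
  have hθn' : 4 + 1 / (θ * Real.log q) ≤ θ * n * Real.log p := by
    have h3 : (4 + 1 / (θ * Real.log q)) / (θ * Real.log p) ≤ n := hn₃.trans (by exact_mod_cast hn3)
    rw [div_le_iff₀ (by positivity)] at h3
    linarith
  have hθn : 4 ≤ θ * n * Real.log p := by linarith
  set z : ℝ := (p : ℝ) ^ (θ * n) with hz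
  have hz0 : 0 < z := by positivity
  set M : ℕ := ⌊z⌋₊ with hM
  have hM1 : (M : ℝ) ≤ z := Nat.floor_le hz0.le
  have hM2 : z < M + 1 := Nat.lt_floor_add_one _
  have hexp3 : 0 < Real.exp 3 := Real.exp_pos 3
  have hM0nn : (0:ℝ) ≤ M0 := Nat.cast_nonneg _
  have hM0R : (M0 : ℝ) + Real.exp 3 + 3 ≤ M := by linarith
  have hMM0 : M0 ≤ M := by
    have : (M0 : ℝ) ≤ M := by linarith
    exact_mod_cast this
  have hMp : (3 : ℝ) ≤ M := by linarith
  have hMp0 : (0 : ℝ) < M := by linarith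
  have hlogM3 : 3 ≤ Real.log M := by
    rw [Real.le_log_iff_exp_le hMp0]
    linarith
  have hlogz : Real.log z = θ * n * Real.log p := by rw [hz, Real.log_rpow hp0]
  have hlogM1 : Real.log M ≤ θ * n * Real.log p := by
    rw [← hlogz]
    exact Real.log_le_log hMp0 hM1
  have hlogM2 : θ * n * Real.log p ≤ Real.log M + 1 := by
    rw [← hlogz]
    have h3 : z ≤ M * Real.exp 1 := by
      have h4 : (2:ℝ) ≤ Real.exp 1 := by
        have := Real.add_one_le_exp (1:ℝ)
        linarith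
      nlinarith
    have h4 := Real.log_le_log hz0 h3
    rwa [Real.log_mul hMp0.ne' (Real.exp_pos _).ne', Real.log_exp] at h4
  have hN : (n : ℝ) ≤ (2 / (θ * Real.log p)) * Real.log M := by
    rw [div_mul_eq_mul_div, le_div_iff₀ (by positivity)]
    calc (n : ℝ) * (θ * Real.log p) = θ * n * Real.log p := by ring
      _ ≤ 2 * Real.log M := by linarith
  set J : ℕ := Nat.log q (p ^ n) with hJ
  have hpn : p ^ n ≠ 0 := by positivity
  have hJ1 : q ^ J ≤ p ^ n := Nat.pow_log_le_self q hpn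
  have hJ2 : p ^ n < q ^ (J + 1) := Nat.lt_pow_succ_log_self (by omega) _
  have hJR1 : (J : ℝ) * Real.log q ≤ n * Real.log p := by
    have h3 : (q : ℝ) ^ J ≤ (p : ℝ) ^ n := by exact_mod_cast hJ1
    have h4 := Real.log_le_log (by positivity) h3
    rwa [Real.log_pow, Real.log_pow] at h4
  have hJR2 : (n : ℝ) * Real.log p ≤ (J + 1) * Real.log q := by
    have h3 : (p : ℝ) ^ n ≤ (q : ℝ) ^ (J + 1) := by exact_mod_cast hJ2.le
    have h4 := Real.log_le_log (by positivity) h3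
    rw [Real.log_pow, Real.log_pow] at h4
    push_cast at h4
    exact h4
  -- `D = n log p / log q`
  obtain ⟨D, hD⟩ : ∃ D : ℝ, D = n * Real.log p / Real.log q := ⟨_, rfl⟩
  have hD1 : (J:ℝ) ≤ D := by rw [hD, le_div_iff₀ hlq]; exact hJR1
  have hD2 : D ≤ J + 1 := by rw [hD, div_le_iff₀ hlq]; exact hJR2
  have hDM : D = (1 / (θ * Real.log q)) * (θ * n * Real.log p) := by rw [hD]; field_simp
  have hD3 : (1 / (θ * Real.log q)) * Real.log M ≤ D := by rw [hDM]; gcongr
  have hJB : (A + 1 + 1) * Real.log M ≤ J := by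
    have : (A + 1 + 1) * Real.log M = (1 / (θ * Real.log q)) * Real.log M - Real.log M := by
      rw [hA]; ring
    rw [this]
    linarith
  have h3 := hM0 M hMM0 f hf.1 n J hN hJ1 hJB
  have h4 : (M : ℝ) ^ (-c) ≤ (p : ℝ) ^ (-(θ * c / 2 * n)) := by
    rw [Real.rpow_def_of_pos hMp0, Real.rpow_def_of_pos hp0]
    apply Real.exp_le_exp.2
    have : θ * n * Real.log p ≤ 2 * Real.log M := by linarith
    nlinarith
  have hcard0 : (0:ℝ) ≤ f.1.card := Nat.cast_nonneg _
  refine le_trans ?_ (h3.trans (mul_le_mul_of_nonneg_left h4 hcard0))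
  refine Nat.cast_le.2 (Finset.card_le_card fun m hm => ?_)
  replace hm := Finset.mem_filter.1 hm
  refine Finset.mem_filter.2 ⟨hm.1, fun hall => hm.2 ?_⟩
  obtain ⟨hm1, hm2⟩ := hf.2.1 m hm.1
  have hm0 := hf.2.2 m hm.1
  intro k j i L hk1 hkw hj hiL
  obtain ⟨a, ha⟩ : ∃ a : ℕ, a = f.2.1 m := ⟨_, rfl⟩
  rw [hm0] at hall
  simp only [add_zero] at hall
  rw [← ha] at hm1 hm2 hiL hall ⊢
  -- the length of the expansion
  have hlogL : ((i:ℝ) + L) ≤ 1 + (2 * (1 / Real.log q) * (θ * n * Real.log p) + (J + 1)) := by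
    have h5 : (q:ℝ) ^ (i + L) ≤ q * (z ^ 2 * (q:ℝ) ^ (J + 1)) := by
      have h6 : ((q ^ (i + L) : ℕ) : ℝ) ≤ ((q * (a * p ^ n) : ℕ) : ℝ) := by exact_mod_cast hiL
      push_cast at h6
      refine h6.trans ?_
      have h7 : (a:ℝ) ≤ z ^ 2 := by
        have h8 : ((a : ℕ) : ℝ) ≤ (M:ℝ)^2 := by exact_mod_cast hm2
        calc (a:ℝ) ≤ (M:ℝ)^2 := h8
          _ ≤ z ^ 2 := by gcongr
      have h8 : (p:ℝ) ^ n ≤ (q:ℝ) ^ (J + 1) := by exact_mod_cast hJ2.le
      gcongr
    have h6 := Real.log_le_log (by positivity) h5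
    rw [Real.log_pow, Real.log_mul (by positivity) (by positivity),
      Real.log_mul (by positivity) (by positivity), Real.log_pow, Real.log_pow, hlogz] at h6
    push_cast at h6
    have h7 : ((i:ℝ) + L) ≤ (Real.log q + (2 * (θ * n * Real.log p) + (J + 1) * Real.log q)) /
        Real.log q := by
      rw [le_div_iff₀ hlq]; exact h6
    refine h7.trans (le_of_eq ?_)
    field_simp
  -- the window
  obtain ⟨i₁, hi₁⟩ : ∃ i₁ : ℕ, i₁ = ⌈(J:ℝ) - A * Real.log M⌉₊ := ⟨_, rfl⟩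
  have hAM : (J:ℝ) - A * Real.log M ≤ 4 * (θ * n * Real.log p) := by
    have h6 : A * Real.log M = (1 / (θ * Real.log q)) * Real.log M - 3 * Real.log M := by
      rw [hA]; ring
    have h7 : (1 / (θ * Real.log q)) * (θ * n * Real.log p) ≤
        (1 / (θ * Real.log q)) * (Real.log M + 1) := by gcongr
    rw [← hDM] at h7
    rw [h6]
    linarith
  have hi₁1 : (J:ℝ) - A * Real.log M ≤ i₁ := by rw [hi₁]; exact Nat.le_ceil _
  have hi₁2 : (i₁:ℝ) ≤ 4 * (θ * n * Real.log p) + 1 := by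
    rw [hi₁]
    have h6 : ⌈(J:ℝ) - A * Real.log M⌉₊ ≤ ⌈4 * (θ * n * Real.log p)⌉₊ := Nat.ceil_mono hAM
    have h7 := Nat.ceil_lt_add_one (a := 4 * (θ * n * Real.log p)) (by positivity)
    have h8 : ((⌈(J:ℝ) - A * Real.log M⌉₊ : ℕ) : ℝ) ≤ (⌈4 * (θ * n * Real.log p)⌉₊ : ℕ) := by
      exact_mod_cast h6
    linarith
  obtain ⟨C, hC⟩ : ∃ C : ℕ, C =
      ((range L).filter (fun s => a * p ^ n / q ^ (i + s) % q ^ k = j)).card := ⟨_, rfl⟩
  rw [← hC]
  have hCL : C ≤ L := by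
    rw [hC]; exact (card_filter_le _ _).trans (by rw [card_range])
  have hqk : (1:ℝ) ≤ (q:ℝ)^k := one_le_pow₀ (by linarith)
  have hkR : (k:ℝ) ≤ w := by exact_mod_cast hkw
  -- the total error
  have htot : Real.log M + ((i₁:ℝ) + (1 + (2 * (1 / Real.log q) * (θ * n * Real.log p) + 1) + k)) ≤
      ε * n := by
    have h5 : 2 * ((5 + 2 * (1 / Real.log q)) * (θ * Real.log p)) * n ≤ ε * n := by gcongr
    nlinarith
  have hCr : (C:ℝ) ≤ L := by exact_mod_cast hCL
  have hC0 : (0:ℝ) ≤ C := Nat.cast_nonneg _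
  have hL0 : (0:ℝ) ≤ L := Nat.cast_nonneg _
  have hLq : (L:ℝ) / (q:ℝ)^k ≤ L := div_le_self hL0 hqk
  have hLq0 : 0 ≤ (L:ℝ) / (q:ℝ)^k := by positivity
  have hlogM0 : 0 ≤ Real.log M := by linarith
  rcases Nat.lt_or_ge (max i i₁) (min (i + L) (J - k)) with hlt | hge
  · obtain ⟨lo, hlo⟩ : ∃ lo, lo = max i i₁ := ⟨_, rfl⟩
    obtain ⟨hi, hhi⟩ : ∃ hi, hi = min (i + L) (J - k) := ⟨_, rfl⟩
    rw [← hlo, ← hhi] at hlt
    have e1 : i ≤ lo := by omega
    have e2 : i₁ ≤ lo := by omega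
    have e3 : hi ≤ i + L := by omega
    have e4 : hi + k ≤ J := by omega
    have e5 : hi = i + L ∨ hi = J - k := by omega
    have e6 : lo = i ∨ lo = i₁ := by omega
    obtain ⟨h5, h6⟩ := sub_window (fun s => a * p ^ n / q ^ s % q ^ k = j) i L lo hi e1 hlt.le e3
    have h7 := hall k j lo (hi - lo) hk1 hkw hj
      (hi₁1.trans (by exact_mod_cast e2)) (by omega)
    obtain ⟨W, hW⟩ : ∃ W : ℕ, W = ((range (hi - lo)).filter
      (fun s => a * p ^ n / q ^ (lo + s) % q ^ k = j)).card := ⟨_, rfl⟩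
    rw [← hC, ← hW] at h5 h6
    rw [← hW, one_mul] at h7
    have hdef : hi - lo ≤ L := by omega
    have h5r : (W:ℝ) ≤ C := by exact_mod_cast h5
    have h6r : (C:ℝ) ≤ W + (L - ((hi - lo : ℕ) : ℝ)) := by
      have : (C:ℝ) ≤ ((W + (L - (hi - lo)) : ℕ) : ℝ) := by exact_mod_cast h6
      rwa [Nat.cast_add, Nat.cast_sub hdef] at this
    -- the part left out
    have hout : (L:ℝ) - ((hi - lo : ℕ) : ℝ) ≤
        (i₁:ℝ) + (1 + (2 * (1 / Real.log q) * (θ * n * Real.log p) + 1) + k) := by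
      rw [Nat.cast_sub hlt.le]
      have hpos : 0 ≤ 2 * (1 / Real.log q) * (θ * n * Real.log p) := by positivity
      have hlor : (lo:ℝ) ≤ i + i₁ := by
        have : lo ≤ i + i₁ := by omega
        exact_mod_cast this
      have hk0 : (0:ℝ) ≤ k := Nat.cast_nonneg _
      rcases e5 with e5 | e5
      · have : (hi:ℝ) = i + L := by rw [e5]; push_cast; ring
        rw [this]; linarith
      · have : (hi:ℝ) + k = J := by
          have : hi + k = J := by omega
          exact_mod_cast this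
        linarith
    have hlen : (L:ℝ) / (q:ℝ)^k - ((hi - lo : ℕ) : ℝ) / (q:ℝ)^k ≤ L - ((hi - lo : ℕ) : ℝ) := by
      rw [← sub_div]
      apply div_le_self _ hqk
      have : ((hi - lo : ℕ) : ℝ) ≤ L := by exact_mod_cast hdef
      linarith
    have hlen0 : 0 ≤ (L:ℝ) / (q:ℝ)^k - ((hi - lo : ℕ) : ℝ) / (q:ℝ)^k := by
      rw [← sub_div]
      apply div_nonneg _ (by positivity)
      have : ((hi - lo : ℕ) : ℝ) ≤ L := by exact_mod_cast hdef
      linarith
    have h9 := abs_le.1 h7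
    rw [abs_le]
    constructor <;> linarith [h9.1, h9.2]
  · -- short windows
    have hLs : (L:ℝ) ≤ (i₁:ℝ) + (1 + (2 * (1 / Real.log q) * (θ * n * Real.log p) + 1) + k) := by
      have hpos : 0 ≤ 2 * (1 / Real.log q) * (θ * n * Real.log p) := by positivity
      have hk0 : (0:ℝ) ≤ k := Nat.cast_nonneg _
      have hi0 : (0:ℝ) ≤ i := Nat.cast_nonneg _
      have hi10 : (0:ℝ) ≤ i₁ := Nat.cast_nonneg _
      have hcases : L ≤ i₁ ∨ J ≤ k + i ∨ J ≤ k + i₁ := by omega
      rcases hcases with h | h | h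
      · have : (L:ℝ) ≤ i₁ := by exact_mod_cast h
        linarith
      · have : (J:ℝ) ≤ k + i := by exact_mod_cast h
        linarith
      · have : (J:ℝ) ≤ k + i₁ := by exact_mod_cast h
        linarith
    rw [abs_le]
    constructor <;> linarith

end Pool.Agent.Q47.PWG
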